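import Mathlib
import Pool.Agent.H14.BipSat

namespace Pool.Agent.Results.MP_7875f2_co.C8Upper

open SimpleGraph

/-- For `ℓ = 4` and all `n₁, n₂ ≥ ℓ + 2 = 6` there is a `C₈`-saturated spanning subgraph of
`K_{n₁,n₂}` with `n₁ + n₂ + 3 < n₁ + n₂ + ℓ² - 3ℓ + 1 = n₁ + n₂ + 5` edges. -/
theorem result :
    ∀ n₁ n₂ : ℕ, 6 ≤ n₁ → 6 ≤ n₂ →
      ∃ H : SimpleGraph (Fin n₁ ⊕ Fin n₂),
        H ≤ completeBipartiteGraph (Fin n₁) (Fin n₂) ∧
        ¬ (cycleGraph 8).IsContained H ∧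
        (∀ u v, (completeBipartiteGraph (Fin n₁) (Fin n₂)).Adj u v → ¬ H.Adj u v →
          (cycleGraph 8).IsContained (H ⊔ edge u v)) ∧
        H.edgeSet.ncard = n₁ + n₂ + 3 := by
  intro n₁ n₂ h1 h2
  obtain ⟨a, rfl⟩ := Nat.exists_eq_add_of_le h1
  obtain ⟨b, rfl⟩ := Nat.exists_eq_add_of_le h2
  refine ⟨Pool.Agent.H14.BipSat.H a b, Pool.Agent.H14.BipSat.H_le a b,
    Pool.Agent.H14.BipSat.H_free a b, ?_, Pool.Agent.H14.BipSat.H_card a b⟩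
  rintro (u | u) (v | v) h3 h4
  · simp at h3
  · exact Pool.Agent.H14.BipSat.H_sat a b u v h4
  · rw [edge_comm]
    exact Pool.Agent.H14.BipSat.H_sat a b v u fun h => h4 h.symm
  · simp at h3

end Pool.Agent.Results.MP_7875f2_co.C8Upper
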